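import Mathlib
import Pool.Agent.L0h62.MT.K

/-!
# MP_9cfc0a_nt: Montgomery's bound for the von Mangoldt function twisted by almost all `χ(n) n ^ (-it)`

Consider the sums of `Λ(n) χ(n) n ^ (-it)` over the `n ≤ x` with `n ≡ a` modulo `q`, where `χ` is a Dirichlet
character modulo `P` and `t` is a real number in `[0, T]`. There are about `R = P (T + 1)` essentially different twists.
We prove that the bound of the conjecture, with the factor `q ^ (1/2)`, holds for almost all of them,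
simultaneously for all `x` between two fixed small powers of `R`, all `q ≤ x ^ (1/2)` and all `a`, and similarly
for the sums over `y < n ≤ z` for all `y`, `z` and all `q`: any set of pairs `(χ, t)` for which one of these bounds fails
and such that the `t` of different pairs with the same `χ` differ by at least one has at most `R ^ (1 - c)` elements.
For `T = 0` this is a statement on the characters modulo `P`, for every modulus `P` (all but `P ^ (1 - c)` characters);
for `P = 1` it is one on the twists `n ^ (-it)`, `0 ≤ t ≤ T`. Moreover `Λ(n)` can be multiplied by any fixed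
complex function `f` with `|f| ≤ 1`.

Proof. The coefficients of the `k`-th power of the sum are bounded by those of the `k`-fold convolution of `Λ` with
itself, hence by a power of the logarithm, and their sum is at most a power of the length of the progression. The mean
value theorem for the family (orthogonality of the characters, the gaps between the logarithms of the integers in a
residue class modulo `P`, and Gallagher's inequality) bounds the moments of order `2 k`. The number of the sums is at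
most `4 x ^ 4`, so a high moment gives all of them at once.
-/

set_option autoImplicit false

namespace Pool.Agent.Results.MP_9cfc0a_nt.CharacterTwists

open Finset MeasureTheory Filter

/-- The sum of `Λ(n) f(n) χ(n) n ^ (-it)` over the integers `n` with `y < n ≤ z` and `n ≡ a` modulo `q`. -/
noncomputable def twistedSum {P : ℕ} (f : ℕ → ℂ) (χ : DirichletCharacter ℂ P) (t : ℝ) (y z q a : ℕ) : ℂ :=
  ∑ n ∈ (Ioc y z).filter (fun n => n % q = a % q),
    (ArithmeticFunction.vonMangoldt n : ℂ) * f n * (χ (n : ZMod P) * (n : ℂ) ^ (-(t : ℂ) * Complex.I))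

/-- Montgomery's bound for `S = twistedSum f χ t` up to `x`, and the analogous bound for all `y < n ≤ z`, `z ≤ x`. -/
def Montgomery (ε x : ℝ) (S : ℕ → ℕ → ℕ → ℕ → ℂ) : Prop :=
  (∀ q a : ℕ, 1 ≤ q → (q : ℝ) ≤ √x → ‖S 0 ⌊x⌋₊ q a‖ ≤ x ^ ((1 : ℝ) / 2 + ε) / √q) ∧
  ∀ y z q a : ℕ, y ≤ z → (z : ℝ) ≤ x → 1 ≤ q → ‖S y z q a‖ ≤ x ^ ε * √(1 + ((z : ℝ) - y) / q)

/-- **Montgomery's bound for almost all twists by `χ(n) n ^ (-it)`.** -/
theorem result : ∀ ε : ℝ, 0 < ε → ∃ A : ℝ, 1 ≤ A ∧ ∀ B : ℝ, A ≤ B → ∃ c : ℝ, 0 < c ∧ ∃ R₀ : ℝ,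
    ∀ (P : ℕ) (T R : ℝ), 1 ≤ P → 0 ≤ T → R = P * (T + 1) → R₀ ≤ R → ∀ f : ℕ → ℂ, (∀ n, ‖f n‖ ≤ 1) →
      ∀ S : Finset (DirichletCharacter ℂ P × ℝ), (∀ w ∈ S, 0 ≤ w.2 ∧ w.2 ≤ T) →
        (∀ w ∈ S, ∀ w' ∈ S, w.1 = w'.1 → w ≠ w' → 1 ≤ |w.2 - w'.2|) →
        (∀ w ∈ S, ∃ x : ℝ, R ^ (1 / B) ≤ x ∧ x ≤ R ^ (1 / A) ∧ ¬ Montgomery ε x (twistedSum f w.1 w.2)) →
        (S.card : ℝ) ≤ R ^ (1 - c) := by
  classical
  intro ε hε
  obtain ⟨k, hk, hmain⟩ := Pool.Agent.L0h62.MT.main (ε / 2) (by positivity)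
  have hk1 : (1 : ℝ) ≤ k := by exact_mod_cast hk
  refine ⟨2 * k, by linarith, ?_⟩
  intro B hB
  have hB0 : 0 < B := by linarith
  obtain ⟨c, hc, Q₁, h⟩ := hmain (2 * B) (by linarith)
  have t1 : Tendsto (fun X : ℝ => X ^ (1 / (2 * B))) atTop atTop := tendsto_rpow_atTop (by positivity)
  have t2 : Tendsto (fun X : ℝ => X ^ (1 / B * (ε / 2))) atTop atTop := tendsto_rpow_atTop (by positivity)
  have t3 : ∀ᶠ X : ℝ in atTop, (5 + 4 * Real.log X) * 2 ^ c ≤ X ^ (c / 4) := by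
    have h1 := (isLittleO_log_rpow_atTop (r := c / 4) (by positivity)).bound
      (c := 1 / (8 * 2 ^ c)) (by positivity)
    have h2 : ∀ᶠ X : ℝ in atTop, 10 * 2 ^ c ≤ X ^ (c / 4) :=
      (tendsto_rpow_atTop (by positivity)).eventually_ge_atTop _
    filter_upwards [h1, h2, eventually_ge_atTop 1] with X a1 a2 a3
    rw [Real.norm_of_nonneg (Real.log_nonneg a3), Real.norm_of_nonneg (by positivity)] at a1
    have h5 : (0 : ℝ) < 2 ^ c := by positivity
    have h6 : Real.log X * (8 * 2 ^ c) ≤ X ^ (c / 4) := by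
      have := mul_le_mul_of_nonneg_right a1 (by positivity : (0 : ℝ) ≤ 8 * 2 ^ c)
      refine this.trans (le_of_eq ?_)
      field_simp
    nlinarith
  obtain ⟨R₀, hR₀⟩ := eventually_atTop.1 ((t1.eventually_ge_atTop 2).and ((t2.eventually_ge_atTop 2).and
    (t3.and (eventually_ge_atTop 4))))
  refine ⟨c / 2, by positivity, max R₀ (Q₁ + 1), ?_⟩
  intro P T R hP hT hR hRR f hf S hS hsp hbad
  have : NeZero P := ⟨by omega⟩
  obtain ⟨q1, q2, q3, q4⟩ := hR₀ R (le_trans (le_max_left _ _) hRR)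
  have hR1 : (1 : ℝ) ≤ R := by linarith
  have hR0 : (0 : ℝ) < R := by linarith
  obtain ⟨Q, hQ⟩ : ∃ Q : ℕ, Q = ⌊R⌋₊ := ⟨_, rfl⟩
  have hQR : (Q : ℝ) ≤ R := by rw [hQ]; exact Nat.floor_le hR0.le
  have hRQ : R < Q + 1 := by rw [hQ]; exact Nat.lt_floor_add_one _
  have hQ₁ : Q₁ ≤ Q := by
    rw [hQ]
    refine Nat.le_floor ?_
    have h1 : (Q₁ : ℝ) + 1 ≤ R := (le_max_right _ _).trans hRR
    linarith
  have hsq : √R ≤ Q := by
    have h1 : 2 ≤ √R := by
      rw [show (2 : ℝ) = √4 by rw [show (4 : ℝ) = 2 ^ 2 by norm_num]; simp]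
      exact Real.sqrt_le_sqrt q4
    have h2 : √R * √R = R := Real.mul_self_sqrt hR0.le
    nlinarith
  have hfin := Pool.Agent.L0h62.MT.fin_disc ε hε P k Q T hT B c hB0 hk
    (fun Ω _ μ _ φ K hK hF f hf => h Q hQ₁ Ω μ φ K hK hF f hf) R hR1 hQR hsq q1 q2 f hf S
    (fun w hw => ⟨(hS w hw).1, (hS w hw).2⟩) hsp (fun _ => True) (fun w hw _ => hbad w hw)
  rw [filter_true_of_mem (fun _ _ => trivial)] at hfin
  refine hfin.trans ?_
  have hQ0 : (0 : ℝ) < Q := by linarith
  have hlog : Real.log (Q : ℝ) ≤ Real.log R := Real.log_le_log hQ0 hQR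
  have hl0 : 0 ≤ Real.log R := Real.log_nonneg hR1
  have hlQ : 0 ≤ Real.log (Q : ℝ) := Real.log_natCast_nonneg Q
  have h1 : (P : ℝ) * (T + 1) + 4 * Q * (1 + Real.log Q) ≤ R * (5 + 4 * Real.log R) := by
    have h2 : (Q : ℝ) * (1 + Real.log Q) ≤ R * (1 + Real.log R) := by gcongr
    rw [← hR]
    linarith
  have h3 : (Q : ℝ) ^ (-c) ≤ 2 ^ c * R ^ (-c) := by
    have h4 : R / 2 ≤ Q := by linarith
    have h5 : (Q : ℝ) ^ (-c) ≤ (R / 2) ^ (-c) :=
      Real.rpow_le_rpow_of_nonpos (by positivity) h4 (by linarith)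
    refine h5.trans (le_of_eq ?_)
    rw [Real.div_rpow hR0.le (by norm_num), Real.rpow_neg (by norm_num : (0 : ℝ) ≤ 2)]
    field_simp
  have h2c : (1 : ℝ) ≤ 2 ^ c := Real.one_le_rpow (by norm_num) hc.le
  have h6 : (5 + 4 * Real.log R) * (3 + 2 * Real.log R) * 2 ^ c ≤ R ^ (c / 2) := by
    have e1 : R ^ (c / 2) = R ^ (c / 4) * R ^ (c / 4) := by
      rw [← Real.rpow_add hR0]; congr 1; ring
    rw [e1]
    calc (5 + 4 * Real.log R) * (3 + 2 * Real.log R) * 2 ^ c
        = ((5 + 4 * Real.log R) * 2 ^ c) * ((3 + 2 * Real.log R) * 1) := by ring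
      _ ≤ ((5 + 4 * Real.log R) * 2 ^ c) * ((5 + 4 * Real.log R) * 2 ^ c) := by
          have e2 : (3 + 2 * Real.log R) ≤ 5 + 4 * Real.log R := by linarith
          gcongr
      _ ≤ R ^ (c / 4) * R ^ (c / 4) := by gcongr
  calc (((P : ℝ) * (T + 1) + 4 * Q * (1 + Real.log Q)) * (3 + 2 * Real.log Q)) * (Q : ℝ) ^ (-c)
      ≤ ((R * (5 + 4 * Real.log R)) * (3 + 2 * Real.log R)) * (2 ^ c * R ^ (-c)) := by gcongr
    _ = ((5 + 4 * Real.log R) * (3 + 2 * Real.log R) * 2 ^ c) * (R * R ^ (-c)) := by ring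
    _ ≤ R ^ (c / 2) * (R * R ^ (-c)) := by gcongr
    _ = R ^ (1 - c / 2) := by
      nth_rw 2 [← Real.rpow_one R]
      rw [← Real.rpow_add hR0, ← Real.rpow_add hR0]
      congr 1
      ring

end Pool.Agent.Results.MP_9cfc0a_nt.CharacterTwists
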