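import Mathlib
import Pool.Agent.L0h54.CV.G

set_option autoImplicit false

/-!
# The variance over residue classes of the von Mangoldt function twisted by Dirichlet characters

Let `ε > 0`.  There is `c > 0` with the following property.  For every large modulus `m` and every complex function `f`
with `|f| ≤ 1`, all Dirichlet characters `χ` modulo `m` with at most `m ^ (1 - c)` exceptions satisfy, for all integers
`x ≥ m ^ ε` with `16 x ^ 4 < m` and all moduli `q` with `x ^ ε ≤ q ≤ x`, the asymptotic formula for the variance: the sum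
over the reduced classes `a` modulo `q` of `|ψ_χ(x; q, a)|²`, where `ψ_χ(x; q, a) = ∑_{n ≤ x, n ≡ a (q)} Λ(n) f(n) χ(n)`,
is `∑_{n ≤ x} |Λ(n) f(n) χ(n)|²` up to an error of at most `x ^ (1 - c)`.  If `|f| = 1` then for every such `q` there is a
reduced class `a` with `|ψ_χ(x; q, a)| ≥ ((1 - ε) x log x / φ(q)) ^ (1/2)`: the bound `x ^ (1/2 + ε) / q ^ (1/2)` of
Montgomery's conjecture has the right size in every modulus.
-/

namespace Pool.Agent.Results.MP_9cfc0a_nt.CharacterVariance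

open Finset

/-- The sum of `Λ(n) f(n) χ(n)` over the integers `1 ≤ n ≤ x` with `n ≡ a` modulo `q`. -/
noncomputable def twistedPsi {m : ℕ} (f : ℕ → ℂ) (χ : DirichletCharacter ℂ m) (x q a : ℕ) : ℂ :=
  ∑ n ∈ (Icc 1 x).filter (fun n => n ≡ a [MOD q]),
    ((ArithmeticFunction.vonMangoldt n : ℝ) : ℂ) * f n * χ (n : ZMod m)

theorem twistedPsi_eq {m : ℕ} (f : ℕ → ℂ) (χ : DirichletCharacter ℂ m) (x q a : ℕ) :
    twistedPsi f χ x q a = Pool.Agent.L0h54.CV.Psi m f χ x q a := by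
  have e : Icc 1 x = Ioc 0 x := by
    ext n
    rw [mem_Icc, mem_Ioc]
    omega
  unfold twistedPsi Pool.Agent.L0h54.CV.Psi Pool.Agent.L0h41.MQ.AP Pool.Agent.L0h54.CV.Gv
  rw [e]
  exact sum_congr rfl fun n _ => by ring

theorem diag_eq {m : ℕ} (f : ℕ → ℂ) (χ : DirichletCharacter ℂ m) (x : ℕ) :
    ∑ n ∈ Icc 1 x, ‖((ArithmeticFunction.vonMangoldt n : ℝ) : ℂ) * f n * χ (n : ZMod m)‖ ^ 2 =
      Pool.Agent.L0h54.CV.Mc m f χ x := by
  unfold Pool.Agent.L0h54.CV.Mc Pool.Agent.L0h54.CV.Gv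
  refine sum_congr rfl fun n _ => ?_
  rw [mul_assoc, norm_mul, mul_pow, Complex.norm_real, Real.norm_eq_abs, sq_abs]

/-- **The variance over the reduced residue classes, and the size of the largest value, for almost all characters.** -/
theorem result (ε : ℝ) (hε : 0 < ε) :
    ∃ c : ℝ, 0 < c ∧ ∃ m₀ : ℕ, ∀ m : ℕ, m₀ ≤ m → ∀ f : ℕ → ℂ, (∀ n, ‖f n‖ ≤ 1) →
      ∃ E : Finset (DirichletCharacter ℂ m), (E.card : ℝ) ≤ (m : ℝ) ^ (1 - c) ∧
        ∀ χ : DirichletCharacter ℂ m, χ ∉ E →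
        ∀ x q : ℕ, (m : ℝ) ^ ε ≤ x → 16 * x ^ 4 < m → (x : ℝ) ^ ε ≤ q → q ≤ x →
          |∑ a ∈ (range q).filter (fun a => Nat.Coprime a q), ‖twistedPsi f χ x q a‖ ^ 2 -
            ∑ n ∈ Icc 1 x, ‖((ArithmeticFunction.vonMangoldt n : ℝ) : ℂ) * f n * χ (n : ZMod m)‖ ^ 2| ≤
              (x : ℝ) ^ (1 - c) ∧
          ((∀ n, ‖f n‖ = 1) → ∃ a < q, Nat.Coprime a q ∧
            √((1 - ε) * (x * Real.log x) / Nat.totient q) ≤ ‖twistedPsi f χ x q a‖) := by
  obtain ⟨c, hc, m₀, h⟩ := Pool.Agent.L0h54.CV.fullC ε hε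
  refine ⟨c, hc, max m₀ 1, fun m hm f hf => ?_⟩
  have : NeZero m := ⟨by have := (le_max_right m₀ 1).trans hm; omega⟩
  obtain ⟨E, hE1, hE2⟩ := h m ((le_max_left m₀ 1).trans hm) f hf
  refine ⟨E, hE1, fun χ hχ x q h1 h2 h3 h4 => ?_⟩
  simp only [twistedPsi_eq, diag_eq]
  exact hE2 χ hχ x q h1 h2 h3 h4

end Pool.Agent.Results.MP_9cfc0a_nt.CharacterVariance
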