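import Mathlib
import Pool.Agent.L0h41.MQ.D

/-!
# MP_9cfc0a_nt: Montgomery's bound for the von Mangoldt function twisted by the Legendre symbols of almost all primes

For almost all primes `P ≤ Q` the bound of the conjecture, with the factor `q ^ (1/2)`, is true for the sums of
`Λ(n) (n/P)` over `n ≤ x`, `n ≡ a` modulo `q`, simultaneously for all `x` between two fixed small powers of `Q`, all
`q ≤ x ^ (1/2)` and all `a`, and similarly for the sums over `y < n ≤ z` for all `y`, `z`. Here `Λ(n)` can be multiplied by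
any fixed real function `f` with `|f| ≤ 1`. For `f = 1` this is the difference between the sums of `Λ(n)` over the
`n ≡ a` modulo `q` which are squares, and not squares, modulo `P`. In the mean over `P` the bound is proved for all
`x ≤ Q ^ (1/k)`, for the powers of order `2 k`; for `k = 1` in the mean square for all `x ≤ Q`.

From Mathlib: `ArithmeticFunction.vonMangoldt` is `Λ`; `jacobiSym n P` is the Legendre symbol `(n/P)` if `P` is an odd prime.

Proof. The power of order `2 k` of the sum over the odd prime powers is a sum of Legendre symbols of products of primes, to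
which the quadratic large sieve of Heath-Brown (`Pool.Agent.H423R2.RZL.HBLSn.HBLS`, in this repository) is applied; the
number of the tuples of primes whose product is a square is bounded by an average over signs. The squares `n = m²` in the
progression are counted by the divisors of the differences. Then there are few exceptional primes for each of the
at most `x ^ 4` progressions.
-/

set_option autoImplicit false

namespace Pool.Agent.Results.MP_9cfc0a_nt.QuadraticTwists

open Finset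

/-- The sum of `Λ(n) f(n) (n/P)` over the integers `n` with `y < n ≤ z` and `n ≡ a` modulo `q`. -/
noncomputable def twistedSum (f : ℕ → ℝ) (P y z q a : ℕ) : ℝ :=
  ∑ n ∈ (Ioc y z).filter (fun n => n % q = a % q), ArithmeticFunction.vonMangoldt n * f n * (jacobiSym (n : ℤ) P : ℝ)

theorem twistedSum_eq (f : ℕ → ℝ) (P y z q a : ℕ) : twistedSum f P y z q a =
    ∑ n ∈ Pool.Agent.L0h41.MQ.AP y z q a,
      ArithmeticFunction.vonMangoldt n * f n * Pool.Agent.H306R2.RZ.js (n : ℤ) P := rfl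

/-- **Montgomery's bound for quadratic twists by almost all primes.** The second part is the mean value over the primes. -/
theorem result :
    (∀ ε : ℝ, 0 < ε → ∃ A : ℝ, 1 ≤ A ∧ ∀ B : ℝ, A ≤ B → ∃ c : ℝ, 0 < c ∧ ∃ Q₀ : ℕ, ∀ Q : ℕ, Q₀ ≤ Q →
      ∀ f : ℕ → ℝ, (∀ n, |f n| ≤ 1) → ∃ E : Finset ℕ, (E.card : ℝ) ≤ (Q : ℝ) ^ (1 - c) ∧
        ∀ P : ℕ, P.Prime → P ≤ Q → P ∉ E → ∀ x : ℝ, (Q : ℝ) ^ (1 / B) ≤ x → x ≤ (Q : ℝ) ^ (1 / A) →
          (∀ q a : ℕ, 1 ≤ q → (q : ℝ) ≤ √x →
            |twistedSum f P 0 ⌊x⌋₊ q a| ≤ x ^ ((1 : ℝ) / 2 + ε) / √q) ∧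
          ∀ y z q a : ℕ, y ≤ z → (z : ℝ) ≤ x → 1 ≤ q →
            |twistedSum f P y z q a| ≤ x ^ ε * √(1 + ((z : ℝ) - y) / q)) ∧
    (∀ k : ℕ, 1 ≤ k → ∀ ε : ℝ, 0 < ε → ∃ C : ℝ, ∀ Q x : ℕ, 2 ≤ x → x ^ k ≤ Q →
      ∀ f : ℕ → ℝ, (∀ n, |f n| ≤ 1) → ∀ y z q a : ℕ, y ≤ z → z ≤ x → 1 ≤ q →
        ∑ P ∈ (Ioc x Q).filter Nat.Prime, twistedSum f P y z q a ^ (2 * k) ≤
          C * (Q : ℝ) ^ (1 + ε) * (1 + ((z : ℝ) - y) / q) ^ k) := by
  constructor
  · intro ε hε
    obtain ⟨k, hk, hmain⟩ := Pool.Agent.L0h41.MQ.main (ε / 2) (by positivity)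
    have hk2 : (2 : ℝ) ≤ k := by exact_mod_cast hk
    refine ⟨k, by linarith, ?_⟩
    intro B hB
    have hB0 : 0 < B := by linarith
    obtain ⟨c, hc, Q₁, h⟩ := hmain (2 * B) (by linarith)
    have t1 : Filter.Tendsto (fun X : ℕ => (X : ℝ) ^ (1 / (2 * B))) Filter.atTop Filter.atTop :=
      (tendsto_rpow_atTop (by positivity)).comp tendsto_natCast_atTop_atTop
    have t2 : Filter.Tendsto (fun X : ℕ => (X : ℝ) ^ (1 / B * (ε / 2))) Filter.atTop Filter.atTop :=
      (tendsto_rpow_atTop (by positivity)).comp tendsto_natCast_atTop_atTop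
    obtain ⟨Q₂, hQ₂⟩ := Filter.eventually_atTop.1 ((t1.eventually_ge_atTop 2).and ((t2.eventually_ge_atTop 2).and
      (Filter.eventually_ge_atTop 1)))
    refine ⟨c, hc, max Q₁ Q₂, ?_⟩
    intro Q hQ f hf
    obtain ⟨q1, q2, q3⟩ := hQ₂ Q (le_trans (le_max_right _ _) hQ)
    obtain ⟨E, hE, hE2⟩ := h Q (le_trans (le_max_left _ _) hQ) f hf
    refine ⟨E, hE, ?_⟩
    intro P hP hPQ hPE x hx1 hx2
    have hQ1 : (1 : ℝ) ≤ Q := by exact_mod_cast q3
    have hQ0 : (0 : ℝ) < Q := by linarith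
    have hsq : (Q : ℝ) ^ (1 / B) = (Q : ℝ) ^ (1 / (2 * B)) * (Q : ℝ) ^ (1 / (2 * B)) := by
      rw [← Real.rpow_add hQ0]
      congr 1
      field_simp
      norm_num
    have hx4 : 4 ≤ x := by
      refine le_trans ?_ hx1
      rw [hsq]
      nlinarith
    have hx0 : 0 < x := by linarith
    have hx1' : 1 ≤ x := by linarith
    obtain ⟨N, hN⟩ : ∃ N, N = ⌊x⌋₊ := ⟨_, rfl⟩
    have hNx : (N : ℝ) ≤ x := by rw [hN]; exact Nat.floor_le hx0.le
    have hxN : x < N + 1 := by rw [hN]; exact Nat.lt_floor_add_one x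
    have hN0 : (0 : ℝ) < N := by linarith
    have hNlow : (Q : ℝ) ^ (1 / (2 * B)) ≤ N := by
      rw [hsq] at hx1
      nlinarith
    obtain ⟨_, hmain2⟩ := hE2 P hP hPQ hPE N hNlow (hNx.trans hx2)
    have hxε : 2 ≤ x ^ (ε / 2) := by
      refine q2.trans ?_
      rw [Real.rpow_mul hQ0.le]
      exact Real.rpow_le_rpow (by positivity) hx1 (by positivity)
    have hNε : (N : ℝ) ^ (ε / 2) ≤ x ^ (ε / 2) := Real.rpow_le_rpow hN0.le hNx (by positivity)
    constructor
    · intro q a hq hqx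
      have hq0 : (0 : ℝ) < q := by exact_mod_cast hq
      have hsx : √x ≤ x := Real.sqrt_le_self_iff.2 (Or.inr hx1')
      have h1 := hmain2 0 N q a (Nat.zero_le _) le_rfl hq
      rw [← twistedSum_eq] at h1
      rw [← hN]
      refine h1.trans ?_
      have h2 : Pool.Agent.L0h41.MQ.ww 0 N q ≤ 2 * (x / q) := by
        unfold Pool.Agent.L0h41.MQ.ww
        rw [Nat.cast_zero, sub_zero]
        have h3 : (N : ℝ) / q ≤ x / q := by gcongr
        have h4 : 1 ≤ x / q := by
          rw [one_le_div hq0]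
          linarith
        linarith
      have h3 : √(Pool.Agent.L0h41.MQ.ww 0 N q) ≤ 2 * (√x / √q) := by
        refine (Real.sqrt_le_sqrt h2).trans ?_
        rw [← Real.sqrt_div' x hq0.le]
        apply Real.sqrt_le_iff.2
        refine ⟨by positivity, ?_⟩
        rw [mul_pow, Real.sq_sqrt (by positivity)]
        have : 0 ≤ x / q := by positivity
        linarith
      calc (N : ℝ) ^ (ε / 2) * √(Pool.Agent.L0h41.MQ.ww 0 N q) ≤ x ^ (ε / 2) * (2 * (√x / √q)) := by gcongr
        _ = x ^ (ε / 2) * 2 * √x / √q := by ring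
        _ ≤ x ^ (ε / 2) * x ^ (ε / 2) * √x / √q := by gcongr
        _ = x ^ ((1 : ℝ) / 2 + ε) / √q := by
            rw [Real.sqrt_eq_rpow x, ← Real.rpow_add hx0, ← Real.rpow_add hx0]
            congr 2
            ring
    · intro y z q a hyz hz hq
      have hzN : z ≤ N := by
        rw [hN]
        exact Nat.le_floor hz
      have h1 := hmain2 y z q a hyz hzN hq
      rw [← twistedSum_eq] at h1
      refine h1.trans ?_
      unfold Pool.Agent.L0h41.MQ.ww
      rw [add_comm (1 : ℝ)]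
      apply mul_le_mul_of_nonneg_right _ (Real.sqrt_nonneg _)
      refine hNε.trans ?_
      exact Real.rpow_le_rpow_of_exponent_le hx1' (by linarith)
  · intro k hk ε hε
    obtain ⟨C, _, hC⟩ := Pool.Agent.L0h41.MQ.moments k hk ε hε
    refine ⟨C, ?_⟩
    intro Q x hx hxQ f hf y z q a hyz hz hq
    have h1 := hC Q x hx hxQ f hf y z q a hyz hz hq
    rw [add_comm (1 : ℝ) (((z : ℝ) - y) / q)]
    exact h1

end Pool.Agent.Results.MP_9cfc0a_nt.QuadraticTwists
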