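import Mathlib
import Pool.Agent.L0h54.HV.Done

set_option autoImplicit false

/-!
# The variance over residue classes of the von Mangoldt function twisted by Legendre symbols

Let `ε > 0`.  There is `c > 0` with the following property.  For all large `Q` and every real function `f` with
`|f| ≤ 1`, all primes `P ≤ Q` with at most `Q ^ (1 - c)` exceptions satisfy, for all integers `x ≥ Q ^ ε` and all moduli
`q` with `x ^ ε ≤ q ≤ x` and `x ^ 4 ≤ q Q ^ (1 - ε)` (for instance all `q` from `x ^ ε` to `x` if `x ≤ Q ^ ((1 - ε) / 4)`),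
the asymptotic formula for the variance: the sum over the reduced classes `a` modulo `q` of the squares of
`ψ_P(x; q, a) = ∑_{n ≤ x, n ≡ a (q)} Λ(n) f(n) (n/P)` is `∑_{n ≤ x} (Λ(n) f(n))²` up to an error of at most `x ^ (1 - c)`.
If `|f| = 1` then this is asymptotic to `x log x`, and for every such `q` there is a reduced class `a` with
`|ψ_P(x; q, a)| ≥ ((1 - ε) x log x / φ(q)) ^ (1/2)`: the bound `x ^ (1/2 + ε) / q ^ (1/2)` of Montgomery's conjecture has the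
right size in every modulus.
-/

namespace Pool.Agent.Results.MP_9cfc0a_nt.VarianceOverClasses

open Finset

/-- The sum of `Λ(n) f(n) (n/P)` over the integers `1 ≤ n ≤ x` with `n ≡ a` modulo `q`. -/
noncomputable def twistedPsi (f : ℕ → ℝ) (P x q a : ℕ) : ℝ :=
  ∑ n ∈ (Icc 1 x).filter (fun n => n ≡ a [MOD q]), ArithmeticFunction.vonMangoldt n * f n * (jacobiSym (n : ℤ) P : ℝ)

theorem twistedPsi_eq (f : ℕ → ℝ) (P x q a : ℕ) : twistedPsi f P x q a = Pool.Agent.L0h54.HV.Sa f P x q a := by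
  have e : Icc 1 x = Ioc 0 x := by
    ext n
    rw [mem_Icc, mem_Ioc]
    omega
  unfold twistedPsi Pool.Agent.L0h54.HV.Sa Pool.Agent.L0h41.MQ.AP Pool.Agent.H306R2.RZ.js
  rw [e]

/-- **The variance over the reduced residue classes, and the size of the largest value, for almost all primes `P`.** -/
theorem result (ε : ℝ) (hε : 0 < ε) :
    ∃ c : ℝ, 0 < c ∧ ∃ Q₀ : ℕ, ∀ Q : ℕ, Q₀ ≤ Q → ∀ f : ℕ → ℝ, (∀ n, |f n| ≤ 1) →
      ∃ E : Finset ℕ, (E.card : ℝ) ≤ (Q : ℝ) ^ (1 - c) ∧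
        ∀ P : ℕ, P.Prime → P ≤ Q → P ∉ E →
        ∀ x q : ℕ, (Q : ℝ) ^ ε ≤ x → (x : ℝ) ^ ε ≤ q → q ≤ x → (x : ℝ) ^ 4 ≤ q * (Q : ℝ) ^ (1 - ε) →
          |∑ a ∈ (range q).filter (fun a => Nat.Coprime a q), twistedPsi f P x q a ^ 2 -
            ∑ n ∈ Icc 1 x, (ArithmeticFunction.vonMangoldt n * f n) ^ 2| ≤ (x : ℝ) ^ (1 - c) ∧
          ((∀ n, |f n| = 1) → ∃ a < q, Nat.Coprime a q ∧
            √((1 - ε) * (x * Real.log x) / Nat.totient q) ≤ |twistedPsi f P x q a|) := by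
  obtain ⟨c, hc, Q₀, h⟩ := Pool.Agent.L0h54.HV.done ε hε
  refine ⟨c, hc, Q₀, fun Q hQ f hf => ?_⟩
  obtain ⟨E, hE1, hE2⟩ := h Q hQ f hf
  refine ⟨E, hE1, fun P hP hPQ hPE x q h1 h2 h3 h4 => ?_⟩
  simp only [twistedPsi_eq]
  exact hE2 P hP hPQ hPE x q h1 h2 h3 h4

end Pool.Agent.Results.MP_9cfc0a_nt.VarianceOverClasses
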